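import Pool.Agent.L7h60.GP.Loc
import Pool.Agent.L7h93.GP.Stm

/-!
# Serre's theorem: a noetherian local ring whose maximal ideal has finite projective dimension is regular;
localisations of regular local rings are regular
(S_SER of project GP of helper93)
-/

set_option autoImplicit false

namespace Pool.Agent.L7h60.GP

open CategoryTheory IsLocalRing TensorProduct

section

variable {R : Type} [CommRing R] [IsLocalRing R] [IsNoetherianRing R]

/-- if the socle is not zero, then modules of finite projective dimension are free -/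
theorem free_of_socle (s : R) (hs0 : s ≠ 0) (hs : ∀ r ∈ maximalIdeal R, s * r = 0) :
    ∀ (n : ℕ) (M : Type) [AddCommGroup M] [Module R M] [Module.Finite R M], PD R n M →
      Module.Free R M := by
  intro n
  induction n with
  | zero =>
    intro M _ _ _ h
    have := pd_zero_iff.1 h
    exact Module.free_of_flat_of_isLocalRing
  | succ n ih =>
    intro M _ _ _ h
    obtain ⟨k, f, hf, hk⟩ := exists_min (R := R) M
    have hfree := ih (LinearMap.ker f) (pd_ker f hf (pd_of_projective n) h)
    have hsK : ∀ κ : LinearMap.ker f, s • κ = 0 := by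
      rintro ⟨κ, hκ⟩
      apply Subtype.ext
      funext i
      exact hs _ (hk κ hκ i)
    have hK : Subsingleton (LinearMap.ker f) := by
      by_contra hne
      rw [not_subsingleton_iff_nontrivial] at hne
      let b := Module.Free.chooseBasis R (LinearMap.ker f)
      have hι : Nonempty (Module.Free.ChooseBasisIndex R (LinearMap.ker f)) := b.index_nonempty
      obtain ⟨i⟩ := hι
      have h1 := hsK (b i)
      have h2 := congrArg (fun v => b.repr v i) h1
      simp at h2
      exact hs0 h2
    have hinj : Function.Injective f := by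
      rw [← LinearMap.ker_eq_bot]
      exact (Submodule.eq_bot_iff _).2 fun y hy => congrArg Subtype.val
        (Subsingleton.elim (⟨y, hy⟩ : LinearMap.ker f) 0)
    exact Module.Free.of_equiv (LinearEquiv.ofBijective f ⟨hinj, hf⟩)

/-- a regular element of order one -/
theorem exists_regular (hm : maximalIdeal R ≠ ⊥)
    (hpd : ∃ n, PD R n (maximalIdeal R)) :
    ∃ x ∈ maximalIdeal R, x ∉ maximalIdeal R ^ 2 ∧ x ∈ nonZeroDivisors R := by
  set m := maximalIdeal R with hmdef
  have hmin : ∀ p ∈ associatedPrimes R R, ¬ (m ≤ p) := by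
    intro p hp hmp
    obtain ⟨hpp, f, hf⟩ := (isAssociatedPrime_iff_exists_injective_linearMap p R).1 hp
    have hpm : p = m := le_antisymm (IsLocalRing.le_maximalIdeal hpp.ne_top) hmp
    subst hpm
    obtain ⟨n, hn⟩ := hpd
    have hnt : Nontrivial (R ⧸ maximalIdeal R) := Ideal.Quotient.nontrivial_iff.2 hpp.ne_top
    have h0 : f 1 ≠ 0 := by
      intro h
      have := hf (h.trans (map_zero f).symm)
      exact one_ne_zero this
    have h1 : ∀ r ∈ maximalIdeal R, f 1 * r = 0 := by
      intro r hr
      have h2 : f (r • (1 : R ⧸ maximalIdeal R)) = 0 := by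
        have h3 : r • (1 : R ⧸ maximalIdeal R) = 0 := by
          rw [Algebra.smul_def, mul_one]
          exact Ideal.Quotient.eq_zero_iff_mem.2 hr
        rw [h3, map_zero]
      rw [map_smul, smul_eq_mul, mul_comm] at h2
      exact h2
    have h4 : PD R n (LinearMap.ker (Submodule.mkQ (maximalIdeal R))) :=
      hn.of_equiv (LinearEquiv.ofEq _ _ (Submodule.ker_mkQ _).symm)
    have h5 : PD R (n + 1) (R ⧸ maximalIdeal R) :=
      pd_quot (Submodule.mkQ (maximalIdeal R)) (Submodule.mkQ_surjective _) h4
        (pd_of_projective (n + 1))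
    have h6 := free_of_socle (f 1) h0 h1 (n + 1) (R ⧸ maximalIdeal R) h5
    apply hm
    rw [Submodule.eq_bot_iff]
    intro r hr
    let b := Module.Free.chooseBasis R (R ⧸ maximalIdeal R)
    obtain ⟨i⟩ : Nonempty (Module.Free.ChooseBasisIndex R (R ⧸ maximalIdeal R)) := b.index_nonempty
    have h7 : r • b i = 0 := by
      obtain ⟨c, hc⟩ := Ideal.Quotient.mk_surjective (b i)
      rw [← hc, Algebra.smul_def]
      have : algebraMap R (R ⧸ maximalIdeal R) r = 0 := Ideal.Quotient.eq_zero_iff_mem.2 hr
      rw [this, zero_mul]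
    have h8 := congrArg (fun v => b.repr v i) h7
    simpa using h8
  have hsq : ¬ (m ≤ m ^ 2) := by
    intro hle
    apply hm
    apply Submodule.eq_bot_of_le_smul_of_le_jacobson_bot m m m.fg_of_isNoetherianRing
    · rw [smul_eq_mul, ← pow_two]; exact hle
    · exact IsLocalRing.maximalIdeal_le_jacobson _
  have hfin : (associatedPrimes R R).Finite := associatedPrimes.finite R R
  have hnot : ¬ ((m : Set R) ⊆ ⋃ i ∈ insert (m ^ 2) (associatedPrimes R R), (i : Set R)) := by
    intro hsub
    have := (Ideal.subset_union_prime_finite (s := insert (m ^ 2) (associatedPrimes R R))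
      (f := fun i => i) (hfin.insert _) (m ^ 2) (m ^ 2) (by
        intro i hi h1 _
        rcases hi with rfl | hi
        · exact absurd rfl h1
        · exact ((isAssociatedPrime_iff_exists_injective_linearMap i R).1 hi).1)).1 hsub
    obtain ⟨i, hi, hmi⟩ := this
    rcases hi with rfl | hi
    · exact hsq hmi
    · exact hmin i hi hmi
  obtain ⟨t, htm, ht⟩ := Set.not_subset.1 hnot
  simp only [Set.mem_iUnion, not_exists] at ht
  have ht2 : t ∉ m ^ 2 := fun h' => ht _ (Set.mem_insert _ _) h'
  refine ⟨t, htm, ht2, ?_⟩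
  by_contra hnz
  have h1 : t ∈ (nonZeroDivisors R : Set R)ᶜ := hnz
  rw [← biUnion_associatedPrimes_eq_compl_nonZeroDivisors] at h1
  simp only [Set.mem_iUnion] at h1
  obtain ⟨p, hp, htp⟩ := h1
  exact ht p (Set.mem_insert_of_mem _ hp) htp

/-- the maximal ideal of `R / x` is a direct summand of `𝔪 / x 𝔪` -/
theorem exists_retract (x : R) (hx2 : x ∉ maximalIdeal R ^ 2)
    [IsLocalRing (R ⧸ Ideal.span {x})] :
    ∃ (i : maximalIdeal (R ⧸ Ideal.span {x}) →ₗ[R ⧸ Ideal.span {x}] Q x (maximalIdeal R))
      (r : Q x (maximalIdeal R) →ₗ[R ⧸ Ideal.span {x}] maximalIdeal (R ⧸ Ideal.span {x})),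
      ∀ y, r (i y) = y := by
  set m := maximalIdeal R with hm
  have hmap : m.map (Ideal.Quotient.mk (Ideal.span {x})) = maximalIdeal (R ⧸ Ideal.span {x}) :=
    Pool.Agent.H379R3.map_mk_maximalIdeal (Ideal.span {x})
  -- a maximal ideal between `m ^ 2` and `m` without `x`
  obtain ⟨J, ⟨hJ1, hJ2, hJ3⟩, hJ4⟩ := set_has_maximal_iff_noetherian.2
    (inferInstance : IsNoetherian R R) {J : Ideal R | m ^ 2 ≤ J ∧ J ≤ m ∧ x ∉ J}
    ⟨m ^ 2, le_rfl, Ideal.pow_le_self two_ne_zero, hx2⟩
  have hJx : ∀ y ∈ m, ∃ j ∈ J, ∃ c, y = j + c * x := by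
    intro y hy
    by_contra hno
    push Not at hno
    have hyJ : y ∉ J := fun h => hno y h 0 (by rw [zero_mul, add_zero])
    refine hJ4 (J ⊔ Ideal.span {y}) ⟨hJ1.trans le_sup_left, sup_le hJ2
      ((Ideal.span_singleton_le_iff_mem _).2 hy), ?_⟩ ?_
    · intro hxJ
      obtain ⟨j, hj, z, hz, hjz⟩ := Submodule.mem_sup.1 hxJ
      obtain ⟨c, rfl⟩ := Ideal.mem_span_singleton'.1 hz
      by_cases hc : IsUnit c
      · obtain ⟨u, rfl⟩ := hc
        refine hno (-(((u⁻¹ : Rˣ) : R) * j)) (J.neg_mem (Ideal.mul_mem_left J _ hj)) ((u⁻¹ : Rˣ) : R) ?_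
        rw [← hjz]
        have := Units.inv_mul u
        linear_combination (-y) * this
      · apply hJ3
        rw [← hjz]
        refine J.add_mem hj (hJ1 ?_)
        rw [pow_two]
        exact Ideal.mul_mem_mul ((mem_maximalIdeal _).2 hc) hy
    · refine lt_of_le_of_ne le_sup_left ?_
      intro h
      apply hyJ
      rw [h]
      exact Ideal.mem_sup_right (Ideal.mem_span_singleton_self y)
  have hJc : ∀ c, c * x ∈ J → c ∈ m := by
    intro c hc
    by_contra hcm
    have hu : IsUnit c := by
      by_contra h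
      exact hcm ((mem_maximalIdeal _).2 h)
    exact hJ3 ((Ideal.unit_mul_mem_iff_mem J hu).1 hc)
  have hmem : ∀ a : m, Ideal.Quotient.mk (Ideal.span {x}) a.1 ∈ maximalIdeal (R ⧸ Ideal.span {x}) := by
    intro a
    rw [← hmap]
    exact Ideal.mem_map_of_mem _ a.2
  -- the retraction
  let ρ : m →ₗ[R] maximalIdeal (R ⧸ Ideal.span {x}) :=
    { toFun := fun a => ⟨Ideal.Quotient.mk (Ideal.span {x}) a.1, hmem a⟩
      map_add' := fun a b => rfl
      map_smul' := fun a b => rfl }
  let r : Q x m →ₗ[R ⧸ Ideal.span {x}] maximalIdeal (R ⧸ Ideal.span {x}) :=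
    LinearMap.extendScalarsOfSurjective (Ideal.Quotient.mk_surjective)
      (Submodule.liftQ _ ρ (by
        intro a ha
        rw [mem_smul_top] at ha
        obtain ⟨b, rfl⟩ := ha
        rw [LinearMap.mem_ker]
        apply Subtype.ext
        show Ideal.Quotient.mk (Ideal.span {x}) (x * b.1) = 0
        exact Ideal.Quotient.eq_zero_iff_mem.2 (Ideal.mul_mem_right _ _
          (Ideal.mem_span_singleton_self x))))
  have hr : ∀ a : m, r (Submodule.Quotient.mk a) = ρ a := fun a => rfl
  -- the section
  let ψ : J →ₗ[R] maximalIdeal (R ⧸ Ideal.span {x}) := ρ.comp (Submodule.inclusion hJ2)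
  let φ : J →ₗ[R] Q x m := (Submodule.mkQ _).comp (Submodule.inclusion hJ2)
  have hψ : Function.Surjective ψ := by
    rintro ⟨y, hy⟩
    rw [← hmap, Ideal.mem_map_iff_of_surjective _ Ideal.Quotient.mk_surjective] at hy
    obtain ⟨a, ha, rfl⟩ := hy
    obtain ⟨j, hj, c, rfl⟩ := hJx a ha
    refine ⟨⟨j, hj⟩, ?_⟩
    apply Subtype.ext
    show Ideal.Quotient.mk (Ideal.span {x}) j = Ideal.Quotient.mk (Ideal.span {x}) (j + c * x)
    rw [Ideal.Quotient.eq]
    have : j - (j + c * x) = (-c) * x := by ring
    rw [this]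
    exact Ideal.mul_mem_left _ _ (Ideal.mem_span_singleton_self x)
  have hker : LinearMap.ker ψ ≤ LinearMap.ker φ := by
    rintro ⟨j, hj⟩ h
    have h1 : Ideal.Quotient.mk (Ideal.span {x}) j = 0 := congrArg Subtype.val h
    obtain ⟨c, hc⟩ := Ideal.mem_span_singleton'.1 (Ideal.Quotient.eq_zero_iff_mem.1 h1)
    have hcm : c ∈ m := hJc c (by rw [hc]; exact hj)
    show (Submodule.Quotient.mk _ : Q x m) = 0
    rw [Submodule.Quotient.mk_eq_zero, mem_smul_top]
    refine ⟨⟨c, hcm⟩, Subtype.ext ?_⟩
    show x * c = j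
    rw [← hc, mul_comm]
  let i0 : maximalIdeal (R ⧸ Ideal.span {x}) →ₗ[R] Q x m :=
    (Submodule.liftQ _ φ hker).comp (ψ.quotKerEquivOfSurjective hψ).symm.toLinearMap
  have hi0 : ∀ j : J, i0 (ψ j) = φ j := by
    intro j
    show (Submodule.liftQ _ φ hker) ((ψ.quotKerEquivOfSurjective hψ).symm (ψ j)) = φ j
    have : (ψ.quotKerEquivOfSurjective hψ).symm (ψ j) = Submodule.Quotient.mk j := by
      rw [LinearEquiv.symm_apply_eq]
      rfl
    rw [this]
    rfl
  refine ⟨LinearMap.extendScalarsOfSurjective (Ideal.Quotient.mk_surjective) i0, r, fun y => ?_⟩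
  obtain ⟨j, rfl⟩ := hψ y
  show r (i0 (ψ j)) = ψ j
  rw [hi0]
  rfl

end

/-- Serre's theorem -/
theorem serre (d : ℕ) : ∀ (R : Type) [CommRing R] [IsLocalRing R] [IsNoetherianRing R],
    ringKrullDim R = (d : ℕ) → (∃ n, PD R n (maximalIdeal R)) → IsRegularLocalRing R := by
  induction d with
  | zero =>
    intro R _ _ _ hd hpd
    by_cases hm : maximalIdeal R = ⊥
    · apply IsRegularLocalRing.of_spanFinrank_maximalIdeal_le
      rw [hm, hd]
      simp
    · obtain ⟨x, hx, -, hx0⟩ := exists_regular hm hpd
      have h1 := ringKrullDim_quotient_span_singleton_succ_eq_ringKrullDim_of_mem_nonZeroDivisors hx0 hx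
      have hne : Ideal.span {x} ≠ ⊤ := by
        intro h
        have : Ideal.span {x} ≤ maximalIdeal R := by
          rw [Ideal.span_singleton_le_iff_mem]; exact hx
        rw [h] at this
        exact (maximalIdeal.isMaximal R).ne_top (top_le_iff.1 this)
      have : Nontrivial (R ⧸ Ideal.span {x}) := Ideal.Quotient.nontrivial_iff.2 hne
      have h2 : 0 ≤ ringKrullDim (R ⧸ Ideal.span {x}) := ringKrullDim_nonneg_of_nontrivial
      have h3 : (0 : WithBot ℕ∞) + 1 ≤ ringKrullDim R := by
        rw [← h1]
        gcongr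
      rw [hd] at h3
      norm_num at h3
  | succ d ih =>
    intro R _ _ _ hd hpd
    have hm : maximalIdeal R ≠ ⊥ := by
      intro h0
      have h2 : IsField R := isField_iff_maximalIdeal_eq.2 h0
      have := ringKrullDim_eq_zero_of_isField h2
      rw [hd] at this
      have h3 : d + 1 = 0 := by exact_mod_cast this
      omega
    obtain ⟨x, hx, hx2, hx0⟩ := exists_regular hm hpd
    have h1 := ringKrullDim_quotient_span_singleton_succ_eq_ringKrullDim_of_mem_nonZeroDivisors hx0 hx
    have hne : Ideal.span {x} ≠ ⊤ := by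
      intro h
      have : Ideal.span {x} ≤ maximalIdeal R := by
        rw [Ideal.span_singleton_le_iff_mem]; exact hx
      rw [h] at this
      exact (maximalIdeal.isMaximal R).ne_top (top_le_iff.1 this)
    have hnt : Nontrivial (R ⧸ Ideal.span {x}) := Ideal.Quotient.nontrivial_iff.2 hne
    have hloc : IsLocalRing (R ⧸ Ideal.span {x}) :=
      IsLocalRing.of_surjective' (Ideal.Quotient.mk _) Ideal.Quotient.mk_surjective
    have hdim : ringKrullDim (R ⧸ Ideal.span {x}) = (d : ℕ) := by
      rw [hd] at h1
      have h2 : ringKrullDim (R ⧸ Ideal.span {x}) + 1 = ((d : ℕ) : WithBot ℕ∞) + 1 := by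
        rw [h1]
        push_cast
        rfl
      exact le_antisymm (ENat.WithBot.add_le_add_one_right_iff.1 h2.le)
        (ENat.WithBot.add_le_add_one_right_iff.1 h2.ge)
    have hxR : ∀ r : R, x * r = 0 → r = 0 := fun r hr =>
      (mem_nonZeroDivisors_iff.1 hx0).1 r hr
    obtain ⟨n, hn⟩ := hpd
    have h2 : PD (R ⧸ Ideal.span {x}) n (Q x (maximalIdeal R)) :=
      pd_change x hxR n (maximalIdeal R) (fun a ha => Subtype.ext (hxR a.1 (congrArg Subtype.val ha))) hn
    obtain ⟨i, r, hir⟩ := exists_retract x hx2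
    have h3 : IsRegularLocalRing (R ⧸ Ideal.span {x}) := ih _ hdim ⟨n, h2.of_retract i r hir⟩
    -- the maximal ideal of `R` is generated by `d + 1` elements
    apply IsRegularLocalRing.of_spanFinrank_maximalIdeal_le
    have hmap : (maximalIdeal R).map (Ideal.Quotient.mk (Ideal.span {x})) =
        maximalIdeal (R ⧸ Ideal.span {x}) := Pool.Agent.H379R3.map_mk_maximalIdeal (Ideal.span {x})
    have fg : (maximalIdeal (R ⧸ Ideal.span {x})).FG := Ideal.fg_of_isNoetherianRing _
    have hfin := Submodule.FG.finite_generators fg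
    let σ : R ⧸ Ideal.span {x} → R := Function.surjInv Ideal.Quotient.mk_surjective
    have hσ : ∀ y, Ideal.Quotient.mk (Ideal.span {x}) (σ y) = y :=
      Function.surjInv_eq Ideal.Quotient.mk_surjective
    set G := (maximalIdeal (R ⧸ Ideal.span {x})).generators with hG
    have hGspan : Ideal.span G = maximalIdeal (R ⧸ Ideal.span {x}) :=
      Submodule.span_generators _
    have hgen : Ideal.span (σ '' G ∪ {x}) = maximalIdeal R := by
      apply le_antisymm
      · rw [Ideal.span_le]
        rintro a (⟨y, hy, rfl⟩ | ha)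
        · have hy' : y ∈ maximalIdeal (R ⧸ Ideal.span {x}) := by
            rw [← hGspan]
            exact Ideal.subset_span hy
          rw [SetLike.mem_coe, mem_maximalIdeal, mem_nonunits_iff]
          intro hu
          have := hu.map (Ideal.Quotient.mk (Ideal.span {x}))
          rw [hσ] at this
          exact (mem_maximalIdeal _).1 hy' this
        · rw [Set.mem_singleton_iff] at ha
          subst ha
          exact hx
      · intro a ha
        have h4 : Ideal.Quotient.mk (Ideal.span {x}) a ∈ maximalIdeal (R ⧸ Ideal.span {x}) := by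
          rw [← hmap]
          exact Ideal.mem_map_of_mem _ ha
        have h5 : G = Ideal.Quotient.mk (Ideal.span {x}) '' (σ '' G) := by
          rw [Set.image_image]
          simp [hσ]
        rw [← hGspan, h5, ← Ideal.map_span, Ideal.mem_map_iff_of_surjective _
          Ideal.Quotient.mk_surjective] at h4
        obtain ⟨b, hb, hab⟩ := h4
        rw [Ideal.span_union]
        have h6 : a - b ∈ Ideal.span {x} := by
          rw [← Ideal.Quotient.eq_zero_iff_mem, map_sub, hab, sub_self]
        have h7 : a = b + (a - b) := by ring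
        rw [h7]
        exact Ideal.add_mem _ (Ideal.mem_sup_left hb) (Ideal.mem_sup_right h6)
    have h8 : (maximalIdeal R).spanFinrank ≤ d + 1 := by
      rw [← hgen]
      refine (Submodule.spanFinrank_span_le_ncard_of_finite ((hfin.image σ).union
        (Set.finite_singleton x))).trans ?_
      refine (Set.ncard_union_le _ _).trans ?_
      rw [Set.ncard_singleton]
      have h9 : G.ncard = d := by
        rw [hG, Submodule.FG.generators_ncard fg]
        have := (isRegularLocalRing_iff (R ⧸ Ideal.span {x})).1 h3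
        rw [hdim] at this
        exact_mod_cast this
      have := Set.ncard_image_le (f := σ) hfin
      omega
    rw [hd]
    exact_mod_cast h8

/-- comparison of two localizations of a module -/
noncomputable def locEquiv {P : Type} [CommRing P] (S : Submonoid P) (M : ModuleCat.{0} P)
    (N : Type) [AddCommGroup N] [Module P N] [Module (Localization S) N]
    [IsScalarTower P (Localization S) N] (f : M →ₗ[P] N) [IsLocalizedModule S f] :
    M.localizedModule S ≃ₗ[Localization S] N :=
  LinearEquiv.extendScalarsOfIsLocalization S (Localization S)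
    (IsLocalizedModule.linearEquiv S (M.localizedModuleMkLinearMap S) f)

/-- localisations of regular local rings are regular -/
theorem s_SER : Pool.Agent.L7h93.GP.S_SER := by
  intro P _ _
  rw [isRegularRing_iff]
  intro p hp
  obtain ⟨d, hd⟩ := Pool.Agent.H379R3.exists_dim_eq (B := P)
  obtain ⟨n, hn⟩ := all_pd d P hd p
  have h1 : HasProjectiveDimensionLE ((ModuleCat.of P p).localizedModule p.primeCompl) n := by
    have : HasProjectiveDimensionLE (ModuleCat.of P p) n := hn
    exact ModuleCat.localizedModule_hasProjectiveDimensionLE n p.primeCompl (ModuleCat.of P p)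
  have e : ((ModuleCat.of P p).localizedModule p.primeCompl) ≃ₗ[Localization.AtPrime p]
      maximalIdeal (Localization.AtPrime p) := by
    have h2 : (p.map (algebraMap P (Localization.AtPrime p))) = maximalIdeal (Localization.AtPrime p) :=
      Localization.AtPrime.map_eq_maximalIdeal
    have e1 : ((ModuleCat.of P p).localizedModule p.primeCompl) ≃ₗ[Localization.AtPrime p]
        (p.map (algebraMap P (Localization.AtPrime p))) :=
      @locEquiv P _ p.primeCompl (ModuleCat.of P p) _ _ _ _ _
        (Algebra.idealMap p (S := Localization.AtPrime p)) (Algebra.idealMap_isLocalizedModule _ _ p)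
    exact e1.trans (LinearEquiv.ofEq _ _ h2)
  have h3 : PD (Localization.AtPrime p) n (maximalIdeal (Localization.AtPrime p)) := by
    have h4 : PD (Localization.AtPrime p) n ((ModuleCat.of P p).localizedModule p.primeCompl) := h1
    exact h4.of_equiv e
  have hfin : ∃ d' : ℕ, ringKrullDim (Localization.AtPrime p) = d' := by
    have h5 := ringKrullDim_ne_top (R := Localization.AtPrime p)
    have h6 := ringKrullDim_ne_bot (R := Localization.AtPrime p)
    obtain ⟨a, ha⟩ := WithBot.ne_bot_iff_exists.1 h6
    rw [← ha] at h5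
    have h7 : a ≠ ⊤ := fun h => h5 (by rw [h]; rfl)
    obtain ⟨b, rfl⟩ := ENat.ne_top_iff_exists.1 h7
    exact ⟨b, ha.symm⟩
  obtain ⟨d', hd'⟩ := hfin
  exact serre d' _ hd' ⟨n, h3⟩

end Pool.Agent.L7h60.GP
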