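import Pool.Agent.L7h60.GP.PD
import Pool.Agent.H379R3.Reg

/-!
# Finite modules over regular local rings have finite projective dimension; Serre's theorem
(for project GP of helper93)
-/

set_option autoImplicit false

namespace Pool.Agent.L7h60.GP

open CategoryTheory IsLocalRing TensorProduct

section loc

variable {R : Type} [CommRing R] [IsLocalRing R]

/-- a finite module has a presentation with kernel in `𝔪 F` -/
theorem exists_min (M : Type) [AddCommGroup M] [Module R M] [Module.Finite R M] :
    ∃ (k : ℕ) (f : (Fin k → R) →ₗ[R] M), Function.Surjective f ∧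
      ∀ a ∈ LinearMap.ker f, ∀ i, a i ∈ maximalIdeal R := by
  let w := Module.finBasis (ResidueField R) (ResidueField R ⊗[R] M)
  obtain ⟨v, hv⟩ := (TensorProduct.mk_surjective R M (ResidueField R)
    Ideal.Quotient.mk_surjective).comp_left w
  refine ⟨_, Fintype.linearCombination R v, ?_, ?_⟩
  · rw [← LinearMap.range_eq_top, Fintype.range_linearCombination]
    exact IsLocalRing.span_eq_top_of_tmul_eq_basis v w (fun i => congrFun hv i)
  · intro a ha i
    rw [LinearMap.mem_ker, Fintype.linearCombination_apply] at ha
    have h1 : ∑ i, residue R (a i) • w i = 0 := by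
      have h2 := congrArg (fun m => (1 : ResidueField R) ⊗ₜ[R] m) ha
      simp only [tmul_sum, tmul_zero] at h2
      rw [← h2]
      refine Finset.sum_congr rfl fun i _ => ?_
      rw [← congrFun hv i]
      show residue R (a i) • ((1 : ResidueField R) ⊗ₜ[R] v i) = _
      rw [TensorProduct.tmul_smul, TensorProduct.smul_tmul', TensorProduct.smul_tmul']
      congr 1
    have h3 := Fintype.linearIndependent_iff.1 w.linearIndependent (fun i => residue R (a i)) h1 i
    rwa [residue_eq_zero_iff] at h3

theorem sub_of_smul {M : Type} [AddCommGroup M] [Module R M] [Module.Finite R M]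
    (h : ∀ m : M, m ∈ (maximalIdeal R • ⊤ : Submodule R M)) : Subsingleton M := by
  have h2 := Submodule.eq_bot_of_le_smul_of_le_jacobson_bot (maximalIdeal R) (⊤ : Submodule R M)
    Module.Finite.fg_top (fun m _ => h m) (IsLocalRing.maximalIdeal_le_jacobson _)
  rw [← Submodule.subsingleton_iff R, ← subsingleton_iff_bot_eq_top]
  exact h2.symm

omit [IsLocalRing R] in
theorem lift_ker (x : R) {M N : Type} [AddCommGroup M] [Module R M] [AddCommGroup N] [Module R N]
    (f : M →ₗ[R] N) (hf : Function.Surjective f) (y : Q x M) (hy : qmap x f y = 0) :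
    ∃ κ ∈ LinearMap.ker f, (Submodule.Quotient.mk κ : Q x M) = y := by
  obtain ⟨m, rfl⟩ := Submodule.Quotient.mk_surjective _ y
  rw [qmap_mk, Submodule.Quotient.mk_eq_zero, mem_smul_top] at hy
  obtain ⟨n, hn⟩ := hy
  obtain ⟨m', rfl⟩ := hf n
  refine ⟨m - x • m', ?_, ?_⟩
  · rw [LinearMap.mem_ker, map_sub, map_smul, hn, sub_self]
  · rw [Submodule.Quotient.eq, mem_smul_top]
    exact ⟨-m', by rw [smul_neg]; abel⟩

omit [IsLocalRing R] in
theorem fin_smul {x : R} (hxR : ∀ r : R, x * r = 0 → r = 0) {k : ℕ} (m : Fin k → R)
    (hm : x • m = 0) : m = 0 := by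
  funext i
  exact hxR _ (congrFun hm i)

/-- projective dimension is not smaller modulo a regular element -/
theorem pd_lift [IsNoetherianRing R] (x : R) (hxm : x ∈ maximalIdeal R)
    (hxR : ∀ r : R, x * r = 0 → r = 0) :
    ∀ (n : ℕ) (M : Type) [AddCommGroup M] [Module R M] [Module.Finite R M],
      (∀ m : M, x • m = 0 → m = 0) → PD (R ⧸ Ideal.span {x}) n (Q x M) → PD R n M := by
  intro n
  induction n with
  | zero =>
    intro M _ _ _ hx h
    obtain ⟨k, f, hf, hk⟩ := exists_min (R := R) M
    have hp := pd_zero_iff.1 h
    obtain ⟨s, hs⟩ := Module.projective_lifting_property (qmap x f) LinearMap.id (qmap_surj x hf)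
    have hs' : ∀ y, qmap x f (s y) = y := fun y => LinearMap.congr_fun hs y
    have hK : Subsingleton (LinearMap.ker f) := by
      apply sub_of_smul (R := R)
      rintro ⟨κ, hκ⟩
      have h1 : ∀ i, ∃ v ∈ LinearMap.ker f, (Submodule.Quotient.mk v : Q x (Fin k → R)) =
          Submodule.Quotient.mk (Pi.single i 1) - s (qmap x f (Submodule.Quotient.mk (Pi.single i 1))) := by
        intro i
        apply lift_ker x f hf
        rw [map_sub, hs', sub_self]
      choose v hv1 hv2 using h1
      have e1 : κ = ∑ i, κ i • (Pi.single i (1 : R) : Fin k → R) := by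
        funext j
        simp [Finset.sum_apply, Pi.single_apply]
      have e2 : (Submodule.Quotient.mk (κ - ∑ i, κ i • v i) : Q x (Fin k → R)) = 0 := by
        rw [Submodule.Quotient.mk_sub]
        have e3 : (Submodule.Quotient.mk (∑ i, κ i • v i) : Q x (Fin k → R)) =
            ∑ i, κ i • (Submodule.Quotient.mk (Pi.single i 1) -
              s (qmap x f (Submodule.Quotient.mk (Pi.single i 1)))) := by
          rw [← Submodule.mkQ_apply, map_sum]
          refine Finset.sum_congr rfl fun i _ => ?_
          rw [map_smul, Submodule.mkQ_apply, hv2]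
        have e4 : (Submodule.Quotient.mk κ : Q x (Fin k → R)) =
            ∑ i, κ i • (Submodule.Quotient.mk (Pi.single i 1) : Q x (Fin k → R)) := by
          conv_lhs => rw [e1]
          rw [← Submodule.mkQ_apply, map_sum]
          refine Finset.sum_congr rfl fun i _ => ?_
          rw [map_smul]
          rfl
        have e5 : ∑ i, κ i • s (qmap x f (Submodule.Quotient.mk (Pi.single i 1))) =
            s (qmap x f (Submodule.Quotient.mk κ)) := by
          have e6 : ∀ (r : R) (y : Q x (Fin k → R)), r • s (qmap x f y) = s (qmap x f (r • y)) := by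
            intro r y
            have : ∀ z : Q x (Fin k → R), r • z = (Ideal.Quotient.mk (Ideal.span {x}) r) • z :=
              fun z => rfl
            have h' : ∀ z : Q x M, r • z = (Ideal.Quotient.mk (Ideal.span {x}) r) • z :=
              fun z => rfl
            rw [this, this, map_smul, map_smul]
          rw [e4, map_sum, map_sum]
          exact Finset.sum_congr rfl fun i _ => e6 _ _
        rw [e3]
        simp only [smul_sub, Finset.sum_sub_distrib]
        rw [e5, ← e4, qmap_mk, hκ, Submodule.Quotient.mk_zero, map_zero, sub_zero, sub_self]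
      rw [Submodule.Quotient.mk_eq_zero, mem_smul_top] at e2
      obtain ⟨b, hb⟩ := e2
      have hb' : f b = 0 := by
        apply hx
        rw [← map_smul, hb, map_sub, hκ, zero_sub, neg_eq_zero, map_sum]
        refine Finset.sum_eq_zero fun i _ => ?_
        rw [map_smul, hv1 i, smul_zero]
      have e7 : (⟨κ, hκ⟩ : LinearMap.ker f) =
          x • (⟨b, hb'⟩ : LinearMap.ker f) + ∑ i, κ i • (⟨v i, hv1 i⟩ : LinearMap.ker f) := by
        apply Subtype.ext
        rw [Submodule.coe_add, Submodule.coe_smul, Submodule.coe_sum]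
        simp only [Submodule.coe_smul]
        rw [hb]
        abel
      rw [e7]
      exact Submodule.add_mem _ (Submodule.smul_mem_smul hxm trivial)
        (Submodule.sum_mem _ fun i _ => Submodule.smul_mem_smul (hk κ hκ i) trivial)
    have hinj : Function.Injective f := by
      rw [← LinearMap.ker_eq_bot]
      exact (Submodule.eq_bot_iff _).2 fun y hy => congrArg Subtype.val
        (Subsingleton.elim (⟨y, hy⟩ : LinearMap.ker f) 0)
    exact (pd_of_projective (R := R) (M := Fin k → R) 0).of_equiv
      (LinearEquiv.ofBijective f ⟨hinj, hf⟩)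
  | succ n ih =>
    intro M _ _ _ hx h
    obtain ⟨k, f, hf, -⟩ := exists_min (R := R) M
    have h1 : PD (R ⧸ Ideal.span {x}) n (LinearMap.ker (qmap x f)) :=
      pd_ker (qmap x f) (qmap_surj x hf) (pd_of_projective n) h
    have h2 : PD (R ⧸ Ideal.span {x}) n (Q x (LinearMap.ker f)) := h1.of_equiv (qker x f hf hx).symm
    have h3 := ih (LinearMap.ker f)
      (fun m hm => Subtype.ext (fin_smul hxR m.1 (congrArg Subtype.val hm))) h2
    exact pd_quot f hf h3 (pd_of_projective (n + 1))

end loc

/-- every finite module over a regular local ring has finite projective dimension -/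
theorem all_pd (d : ℕ) : ∀ (R : Type) [CommRing R] [IsRegularLocalRing R], ringKrullDim R = (d : ℕ) →
    ∀ (M : Type) [AddCommGroup M] [Module R M] [Module.Finite R M], ∃ n, PD R n M := by
  induction d with
  | zero =>
    intro R _ _ hd M _ _ _
    have hm := Pool.Agent.H379R3.dim_zero_maximalIdeal_eq_bot hd
    obtain ⟨k, f, hf, hk⟩ := exists_min (R := R) M
    have hinj : Function.Injective f := by
      rw [← LinearMap.ker_eq_bot]
      refine (Submodule.eq_bot_iff _).2 fun y hy => ?_
      funext i
      have := hk y hy i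
      rw [hm] at this
      exact this
    exact ⟨0, (pd_of_projective (R := R) (M := Fin k → R) 0).of_equiv
      (LinearEquiv.ofBijective f ⟨hinj, hf⟩)⟩
  | succ d ih =>
    intro R _ _ hd M _ _ _
    have hmb : maximalIdeal R ≠ ⊥ := by
      intro h0
      have h2 : IsField R := isField_iff_maximalIdeal_eq.2 h0
      have := ringKrullDim_eq_zero_of_isField h2
      rw [hd] at this
      have h3 : d + 1 = 0 := by exact_mod_cast this
      omega
    have hsq : ¬ (maximalIdeal R ≤ maximalIdeal R ^ 2) := by
      intro hle
      apply hmb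
      apply Submodule.eq_bot_of_le_smul_of_le_jacobson_bot (maximalIdeal R) _
        (maximalIdeal R).fg_of_isNoetherianRing
      · rw [smul_eq_mul, ← pow_two]; exact hle
      · exact IsLocalRing.maximalIdeal_le_jacobson _
    obtain ⟨t, ht, ht2⟩ := Set.not_subset.1 hsq
    obtain ⟨hreg, hdim⟩ := Pool.Agent.H379R3.regular_quotient t ht ht2 d hd
    have hdom := Pool.Agent.H379R3.isDomain R
    have ht0 : t ≠ 0 := by
      rintro rfl
      exact ht2 (Ideal.zero_mem _)
    have htR : ∀ r : R, t * r = 0 → r = 0 := fun r hr => (mul_eq_zero.1 hr).resolve_left ht0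
    obtain ⟨k, f, hf, -⟩ := exists_min (R := R) M
    have hfin : Module.Finite (R ⧸ Ideal.span {t}) (Q t (LinearMap.ker f)) :=
      Module.Finite.of_restrictScalars_finite R _ _
    obtain ⟨n, hn⟩ := ih (R ⧸ Ideal.span {t}) hdim (Q t (LinearMap.ker f))
    have h3 := pd_lift t ht htR n (LinearMap.ker f)
      (fun m hm => Subtype.ext (fin_smul htR m.1 (congrArg Subtype.val hm))) hn
    exact ⟨n + 1, pd_quot f hf h3 (pd_of_projective (n + 1))⟩

end Pool.Agent.L7h60.GP
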