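import Mathlib

/-!
# Projective dimension: elementary form, change of rings modulo a regular element
(for project GP of helper93)
-/

set_option autoImplicit false

namespace Pool.Agent.L7h60.GP

open CategoryTheory IsLocalRing TensorProduct

section basic

variable (R : Type) [CommRing R]

/-- `M` has projective dimension at most `n` -/
def PD (n : ℕ) (M : Type) [AddCommGroup M] [Module R M] : Prop :=
  HasProjectiveDimensionLE (ModuleCat.of R M) n

variable {R} {M N : Type} [AddCommGroup M] [Module R M] [AddCommGroup N] [Module R N]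

theorem pd_zero_iff : PD R 0 M ↔ Module.Projective R M := by
  unfold PD
  rw [← projective_iff_hasProjectiveDimensionLE_zero, ← IsProjective.iff_projective]

theorem PD.mono {n m : ℕ} (h : PD R n M) (hnm : n ≤ m) : PD R m M := by
  unfold PD at *
  exact hasProjectiveDimensionLT_of_ge (ModuleCat.of R M) (n + 1) (m + 1) (by omega)

theorem pd_of_projective [Module.Projective R M] (n : ℕ) : PD R n M :=
  (pd_zero_iff.2 inferInstance).mono (Nat.zero_le n)

theorem PD.of_retract {n : ℕ} (h : PD R n M) (i : N →ₗ[R] M) (r : M →ₗ[R] N)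
    (hri : ∀ x, r (i x) = x) : PD R n N := by
  unfold PD at *
  have e : Retract (ModuleCat.of R N) (ModuleCat.of R M) :=
    ⟨ModuleCat.ofHom i, ModuleCat.ofHom r, by
      ext x
      exact hri x⟩
  exact e.hasProjectiveDimensionLT (n + 1)

theorem PD.of_equiv {n : ℕ} (h : PD R n M) (e : M ≃ₗ[R] N) : PD R n N :=
  h.of_retract e.symm.toLinearMap e.toLinearMap (fun x => e.apply_symm_apply x)

theorem pd_ker {n : ℕ} (f : M →ₗ[R] N) (hf : Function.Surjective f) (h2 : PD R n M)
    (h3 : PD R (n + 1) N) : PD R n (LinearMap.ker f) :=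
  (LinearMap.shortExact_shortComplexKer hf).hasProjectiveDimensionLT_X₁ (n + 1) h2 h3

theorem pd_mid {n : ℕ} (f : M →ₗ[R] N) (hf : Function.Surjective f) (h1 : PD R n (LinearMap.ker f))
    (h3 : PD R n N) : PD R n M :=
  (LinearMap.shortExact_shortComplexKer hf).hasProjectiveDimensionLT_X₂ (n + 1) h1 h3

theorem pd_quot {n : ℕ} (f : M →ₗ[R] N) (hf : Function.Surjective f) (h1 : PD R n (LinearMap.ker f))
    (h2 : PD R (n + 1) M) : PD R (n + 1) N :=
  (LinearMap.shortExact_shortComplexKer hf).hasProjectiveDimensionLT_X₃ (n + 1) h1 h2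

end basic

section change

variable {R : Type} [CommRing R] (x : R)

/-- `M / x M` -/
abbrev Q (M : Type) [AddCommGroup M] [Module R M] : Type :=
  M ⧸ (Ideal.span {x} • (⊤ : Submodule R M))

theorem mem_smul_top {M : Type} [AddCommGroup M] [Module R M] {m : M} :
    m ∈ (Ideal.span {x} • (⊤ : Submodule R M)) ↔ ∃ m', x • m' = m := by
  rw [Submodule.ideal_span_singleton_smul, Submodule.mem_smul_pointwise_iff_exists]
  simp

variable {M N : Type} [AddCommGroup M] [Module R M] [AddCommGroup N] [Module R N]

/-- functoriality of `M / x M` -/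
noncomputable def qmap (f : M →ₗ[R] N) : Q x M →ₗ[R ⧸ Ideal.span {x}] Q x N :=
  LinearMap.extendScalarsOfSurjective (Ideal.Quotient.mk_surjective)
    (Submodule.mapQ _ _ f (by
      intro m hm
      rw [mem_smul_top] at hm
      obtain ⟨m', rfl⟩ := hm
      rw [Submodule.mem_comap, map_smul, mem_smul_top]
      exact ⟨f m', rfl⟩))

theorem qmap_mk (f : M →ₗ[R] N) (m : M) :
    qmap x f (Submodule.Quotient.mk m) = Submodule.Quotient.mk (f m) := rfl

theorem qmap_surj {f : M →ₗ[R] N} (hf : Function.Surjective f) : Function.Surjective (qmap x f) := by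
  intro y
  obtain ⟨n, rfl⟩ := Submodule.Quotient.mk_surjective _ y
  obtain ⟨m, rfl⟩ := hf n
  exact ⟨Submodule.Quotient.mk m, qmap_mk x f m⟩

/-- an `R`-linear surjection to an `R / x`-module with kernel `x M` -/
noncomputable def qequiv [Module (R ⧸ Ideal.span {x}) N] [IsScalarTower R (R ⧸ Ideal.span {x}) N]
    (g : M →ₗ[R] N) (hg : Function.Surjective g) (hk : ∀ m, g m = 0 ↔ ∃ m', x • m' = m) :
    Q x M ≃ₗ[R ⧸ Ideal.span {x}] N :=
  LinearEquiv.extendScalarsOfSurjective (Ideal.Quotient.mk_surjective)
    ((Submodule.quotEquivOfEq _ _ (by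
      ext m
      rw [mem_smul_top, LinearMap.mem_ker, hk])).trans (g.quotKerEquivOfSurjective hg))

/-- the kernel of `F / x F → M / x M` is `K / x K`, if `x` is regular on `M` -/
noncomputable def qker (f : M →ₗ[R] N) (hf : Function.Surjective f) (hx : ∀ n : N, x • n = 0 → n = 0) :
    Q x (LinearMap.ker f) ≃ₗ[R ⧸ Ideal.span {x}] LinearMap.ker (qmap x f) := by
  refine qequiv x (M := LinearMap.ker f) (N := LinearMap.ker (qmap x f))
    { toFun := fun k => ⟨Submodule.Quotient.mk k.1, by
        rw [LinearMap.mem_ker, qmap_mk, k.2]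
        rfl⟩
      map_add' := fun a b => rfl
      map_smul' := fun a b => rfl } ?_ ?_
  · rintro ⟨y, hy⟩
    obtain ⟨m, rfl⟩ := Submodule.Quotient.mk_surjective _ y
    rw [LinearMap.mem_ker, qmap_mk, Submodule.Quotient.mk_eq_zero, mem_smul_top] at hy
    obtain ⟨n, hn⟩ := hy
    obtain ⟨m', rfl⟩ := hf n
    refine ⟨⟨m - x • m', ?_⟩, ?_⟩
    · rw [LinearMap.mem_ker, map_sub, map_smul, hn, sub_self]
    · apply Subtype.ext
      show Submodule.Quotient.mk (m - x • m') = Submodule.Quotient.mk m
      rw [Submodule.Quotient.eq, mem_smul_top]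
      exact ⟨-m', by rw [smul_neg]; abel⟩
  · rintro ⟨k, hk⟩
    constructor
    · intro h
      have h1 : (Submodule.Quotient.mk k : Q x M) = 0 := congrArg Subtype.val h
      rw [Submodule.Quotient.mk_eq_zero, mem_smul_top] at h1
      obtain ⟨m, rfl⟩ := h1
      have h2 : f m = 0 := by
        apply hx
        rw [← map_smul]
        exact hk
      exact ⟨⟨m, h2⟩, rfl⟩
    · rintro ⟨⟨m, hm⟩, h⟩
      apply Subtype.ext
      show (Submodule.Quotient.mk k : Q x M) = 0
      rw [Submodule.Quotient.mk_eq_zero, mem_smul_top]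
      exact ⟨m, congrArg Subtype.val h⟩

instance q_projective [Module.Projective R M] : Module.Projective (R ⧸ Ideal.span {x}) (Q x M) := by
  have e : ((R ⧸ Ideal.span {x}) ⊗[R] M) ≃ₗ[R ⧸ Ideal.span {x}] Q x M :=
    LinearEquiv.extendScalarsOfSurjective (Ideal.Quotient.mk_surjective)
      (TensorProduct.quotTensorEquivQuotSMul M (Ideal.span {x}))
  exact Module.Projective.of_equiv e

/-- projective dimension modulo an element regular on `M` -/
theorem pd_change (hxR : ∀ r : R, x * r = 0 → r = 0) : ∀ (n : ℕ) (M : Type) [AddCommGroup M]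
    [Module R M], (∀ m : M, x • m = 0 → m = 0) → PD R n M → PD (R ⧸ Ideal.span {x}) n (Q x M) := by
  intro n
  induction n with
  | zero =>
    intro M _ _ _ h
    have := pd_zero_iff.1 h
    exact pd_zero_iff.2 inferInstance
  | succ n ih =>
    intro M _ _ hx h
    let f : (M →₀ R) →ₗ[R] M := Finsupp.linearCombination R id
    have hf : Function.Surjective f := Finsupp.linearCombination_id_surjective R M
    have hF : ∀ m : M →₀ R, x • m = 0 → m = 0 := by
      intro m hm
      ext i
      apply hxR
      have := DFunLike.congr_fun hm i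
      simpa using this
    have h1 : PD R n (LinearMap.ker f) := pd_ker f hf (pd_of_projective n) h
    have h2 := ih (LinearMap.ker f) (fun m hm => Subtype.ext (hF m.1 (congrArg Subtype.val hm))) h1
    have h3 : PD (R ⧸ Ideal.span {x}) n (LinearMap.ker (qmap x f)) := h2.of_equiv (qker x f hf hx)
    exact pd_quot (qmap x f) (qmap_surj x hf) h3 (pd_of_projective (n + 1))

end change

end Pool.Agent.L7h60.GP
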